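import Pool.Agent.Helper19.HN.St

/-! # HN module NAT: existence of atoms, strong form -/

namespace Pool.Agent.Helper96.HN.NAT

open Ordinal Cardinal ZFSet Order Pool.Agent.Helper73.HODC Pool.Agent.Helper73.HM
open Pool.Agent.Helper73.HE Pool.Agent.Helper73.HU Pool.Agent.Helper73.HX
open Pool.Agent.Helper19.HN

/-- the strong form of NAO: one of the atoms meets the stationary set `T` in a stationary set -/
theorem natO (κ₀ : Cardinal.{0}) (τ : Ordinal.{0}) (X T : Set Ordinal.{0})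
    (hcof : ℵ₀ < τ.cof) (hpow : (2 : Cardinal.{0}) ^ κ₀ < τ.cof) (hX : DPs X) (hT : Stat T τ)
    (hTX : ∀ a ∈ T, a ∈ X) (hns : NoSeqO κ₀ τ X) :
    ∃ A, DPs A ∧ (∀ a ∈ A, a ∈ X ∧ a < τ) ∧ Atom τ A ∧ Stat {a | a ∈ A ∧ a ∈ T} τ := by
  classical
  obtain ⟨-, -, hself, heq⟩ := Inp.ne τ X
  have hex : ∀ α ∈ X, α < τ → ∃ η < κ₀.ord, α ∈ Pool.Agent.Helper73.HM.Nd τ X α η ∧
      ¬ ∃ B, LeastOD τ (Spl τ (Nd τ X α η)) B := by
    intro α hα hαc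
    have h5 : ∃ η < κ₀.ord, ¬ ∃ B, LeastOD τ (Spl τ (Nd τ X α η)) B := by
      by_contra h6
      push Not at h6
      exact Inp.nso κ₀ τ X hcof hX hns α (hself α κ₀.ord hα hαc h6)
    obtain ⟨η, ⟨hη, h6⟩, hmin⟩ := WellFounded.has_min (wellFounded_lt (α := Ordinal.{0}))
      {η | η < κ₀.ord ∧ ¬ ∃ B, LeastOD τ (Spl τ (Nd τ X α η)) B} h5
    refine ⟨η, hη, hself α η hα hαc fun η' hη' => ?_, h6⟩
    by_contra h7
    exact hmin η' ⟨hη'.trans hη, h7⟩ hη'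
  choose! η hη using hex
  -- the pigeonhole principle
  set Y : Type := Option κ₀.ord.ToType × Set κ₀.ord.ToType with hY
  have hκ : κ₀ < τ.cof := (Cardinal.cantor κ₀).trans hpow
  have hYc : Cardinal.mk Y < τ.cof := by
    rw [hY, Cardinal.mk_prod, Cardinal.lift_id, Cardinal.lift_id, Cardinal.mk_option,
      Cardinal.mk_set, mk_toType, Cardinal.card_ord]
    refine Cardinal.mul_lt_of_lt hcof.le ?_ hpow
    exact Cardinal.add_lt_of_lt hcof.le hκ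
      (Cardinal.one_lt_aleph0.trans_le hcof.le)
  let g : Ordinal.{0} → Y := fun α =>
    (if h : η α < κ₀.ord then some (ToType.mk ⟨_, h⟩) else none,
      {z | ∃ ξ : Set.Iio κ₀.ord, ToType.mk ξ = z ∧ ξ.1 ∈ br τ X α})
  have hg : ∀ α α', α ∈ X → α' ∈ X → α < τ → α' < τ → g α = g α' →
      η α = η α' ∧ ∀ ξ < κ₀.ord, ξ ∈ br τ X α ↔ ξ ∈ br τ X α' := by
    intro α α' hα hα' hαc hαc' hgg
    have h5 := congrArg Prod.fst hgg
    have h6 := congrArg Prod.snd hgg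
    simp only [g] at h5 h6
    rw [dif_pos (hη α hα hαc).1, dif_pos (hη α' hα' hαc').1] at h5
    refine ⟨Subtype.ext_iff.1 (ToType.mk.injective (Option.some.inj h5)), fun ξ hξ => ?_⟩
    have h7 := Set.ext_iff.1 h6 (ToType.mk ⟨ξ, hξ⟩)
    simp only [Set.mem_ofPred_eq] at h7
    constructor
    · intro h8
      obtain ⟨ξ', h9, h10⟩ := h7.1 ⟨⟨ξ, hξ⟩, rfl, h8⟩
      have h11 := ToType.mk.injective h9
      rw [h11] at h10
      exact h10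
    · intro h8
      obtain ⟨ξ', h9, h10⟩ := h7.2 ⟨⟨ξ, hξ⟩, rfl, h8⟩
      have h11 := ToType.mk.injective h9
      rw [h11] at h10
      exact h10
  obtain ⟨y, hy⟩ := Inp.pg τ Y T g hcof hYc hT
  obtain ⟨α₀, ⟨hα₀T, hg₀⟩, -, hα₀c⟩ := hy _ (club_univ (isSuccLimit_of_cof hcof))
  have hα₀ : α₀ ∈ X := hTX α₀ hα₀T
  obtain ⟨hη₀, hN₀, hL₀⟩ := hη α₀ hα₀ hα₀c
  have hst : Stat {a | a ∈ Nd τ X α₀ (η α₀) ∧ a ∈ T} τ := by
    refine hy.mono fun a ha hac => ?_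
    obtain ⟨haT, hga⟩ := ha
    have haX : a ∈ X := hTX a haT
    obtain ⟨h5, h6⟩ := hg a α₀ haX hα₀ hac hα₀c (hga.trans hg₀.symm)
    obtain ⟨h7, h8, -⟩ := hη a haX hac
    have h9 := heq a α₀ (η a) h8 (fun ξ hξ => h6 ξ (hξ.trans h7)) (η a) le_rfl
    rw [h9, h5] at h8
    exact ⟨h8, haT⟩
  refine ⟨Nd τ X α₀ (η α₀), ?_, fun a ha => Nd_sub ha, ⟨?_, ?_⟩, hst⟩
  · have h5 := Inp.nd τ X hX
    have h6 : DP (fun v => (v 0).rank ∈ Nd τ X α₀ (v 1).rank) :=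
      dp_subst_at (Q := fun x v => (v 0).rank ∈ Nd τ X x (v 1).rank)
        (h5.rename (fun n => if n = 0 then 1 else if n = 1 then 0 else n)) α₀
    exact dp_subst_at (Q := fun x v => (v 0).rank ∈ Nd τ X α₀ x)
      (h6.rename (fun n => if n = 0 then 1 else 0)) (η α₀)
  · exact hst.mono fun a ha _ => ha.1
  · intro B hB hBs hspl
    exact hL₀ ((Inp.le.2 τ _) ⟨B, hB, hBs, hspl⟩)

/-- the case of a strongly compact cardinal -/
theorem atomsT_sc {κ κ₀ : Cardinal.{0}} (hκ : StronglyCompact κ) (hkk : κ ≤ κ₀)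
    (hα : ∃ α : Ordinal.{0}, IsSuccLimit α ∧ κ.ord ≤ α ∧ α ≤ κ₀.ord ∧ α.cof < κ ∧ ¬ HODSing α) :
    AtomsT κ ((2 : Cardinal.{0}) ^ κ₀) := by
  intro τ X T hτ hX hT hTX hXc
  obtain ⟨α, hα, h3, h4, h5, h6⟩ := hα
  have hlt : κ₀ < τ.cof := (Cardinal.cantor κ₀).trans hτ
  have hkc : κ ≤ τ.cof := hkk.trans hlt.le
  have hunc : ℵ₀ < τ.cof := lt_of_lt_of_le hκ.unc hkc
  obtain ⟨A, hA1, hA2, hA3, hA4⟩ := natO κ₀ τ X T hunc hτ hX hT hTX (by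
    rintro ⟨S, hS1, hS2, hS3, hS4⟩
    exact h6 (Inp.cvo κ τ hκ hkc α κ₀.ord hα h3 h5 h4 S hS1 hS2
      (fun ξ hξ a ha => hXc a (hS3 ξ hξ a ha)) hS4))
  exact ⟨A, ⟨hunc, hA1, hA3⟩, fun a ha => (hA2 a ha).1, hA4⟩

/-- the case of an extendible cardinal -/
theorem atomsT_ext {κ : Cardinal.{0}} (hE : Extendible κ) (hF : Fl κ) : AtomsT κ κ := by
  classical
  intro τ X T hτ hX hT hTX hXc
  have hunc : ℵ₀ < τ.cof := hE.aleph0_lt.trans hτ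
  have hne : (0 : Ordinal.{0}) < κ.ord := by
    rw [← Cardinal.ord_zero]
    exact Cardinal.ord_lt_ord.2 (Cardinal.aleph0_pos.trans hE.aleph0_lt)
  let g : Ordinal.{0} → κ.ord.ToType := fun a =>
    if h : a.cof.ord < κ.ord then ToType.mk ⟨a.cof.ord, h⟩ else ToType.mk ⟨0, hne⟩
  obtain ⟨y, hy⟩ := Inp.pg τ κ.ord.ToType T g hunc (by rw [mk_toType, card_ord]; exact hτ) hT
  obtain ⟨a₀, ⟨ha₀T, hg₀⟩, -, -⟩ := hy _ (club_univ (isSuccLimit_of_cof hunc))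
  have ha₀ : a₀ ∈ X := hTX a₀ ha₀T
  have hcof : ∀ a ∈ X, g a = y → a.cof = a₀.cof := by
    intro a ha hga
    have h1 : a.cof.ord < κ.ord := Cardinal.ord_lt_ord.2 (hXc a ha)
    have h2 : a₀.cof.ord < κ.ord := Cardinal.ord_lt_ord.2 (hXc a₀ ha₀)
    have h3 := hga.trans hg₀.symm
    simp only [g] at h3
    rw [dif_pos h1, dif_pos h2] at h3
    have h4 := congrArg Subtype.val (ToType.mk.injective h3)
    exact Cardinal.ord_injective h4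
  obtain ⟨κ₁, -, h1, h2, h3⟩ :=
    Pool.Agent.Helper73.HX.noSeq_ext Inp.oz Inp.cvo hE hF (hXc a₀ ha₀)
  have hX1 : DPs {a | a ∈ X ∧ a.cof = a₀.cof} :=
    hX.and (Pool.Agent.Helper73.HX.dps_cof_eq Inp.cf a₀.cof)
  obtain ⟨A, hA1, hA2, hA3, hA4⟩ := natO κ₁ τ {a | a ∈ X ∧ a.cof = a₀.cof}
    {a | a ∈ T ∧ g a = y} hunc (h2.trans hτ) hX1 hy
    (fun a ha => ⟨hTX a ha.1, hcof a (hTX a ha.1) ha.2⟩) (h3 τ _ hτ.le fun a ha => ha.2)
  exact ⟨A, ⟨hunc, hA1, hA3⟩, fun a ha => (hA2 a ha).1.1,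
    hA4.mono fun a ha _ => ⟨ha.1, ha.2.1⟩⟩

theorem nat : StNAT := by
  intro κ hκ hF
  by_cases hE : Extendible κ
  · exact ⟨κ, le_rfl, fun _ => rfl, atomsT_ext hE hF⟩
  · obtain ⟨α, hα, h3, h5, h6⟩ := hF
    set κ₀ : Cardinal.{0} := succ (max κ α.card) with hκ₀
    have h4 : α ≤ κ₀.ord := by
      have h7 : α.card < κ₀ := lt_of_le_of_lt (le_max_right _ _) (Order.lt_succ _)
      exact (Cardinal.lt_ord.2 h7).le
    have hkk : κ ≤ κ₀ := (le_max_left _ _).trans (Order.le_succ _)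
    exact ⟨_, hkk.trans (Cardinal.cantor κ₀).le, fun h => absurd h hE,
      atomsT_sc hκ hkk ⟨α, hα, h3, h4, h5, h6⟩⟩

end Pool.Agent.Helper96.HN.NAT
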